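import Pool.Agent.Lib.MP_b5021c_nt.OC.H89.P5a
import Pool.Agent.Lib.MP_b5021c_nt.KO.H89.PowS
import Pool.Agent.Lib.MP_b5021c_nt.KE.H96.Two

/-!
# MP_b5021c_nt, K ODD, (O4), length at least five, `psi = 0`: row OC_P5 from VrS
-/

namespace Pool.Agent.B5.OC89

open Polynomial
open scoped LaurentPolynomial
open Pool.Agent.B5
open Pool.Agent.B5.PowR (face_multi)
open Pool.Agent.B5.H52.T00 (evR_pl)
open Pool.Agent.B5.Nr.Sch (SP aeval_map_real)

/-- `A + B y ≠ 0` in the disc: `|B| ≤ |A|`. -/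
theorem le_of_ne {A B : ℂ} (h : ∀ y : ℂ, ‖y‖ < 1 → A + B * y ≠ 0) : ‖B‖ ≤ ‖A‖ := by
  by_contra hcon
  push Not at hcon
  have hB : B ≠ 0 := by
    intro h3
    rw [h3, norm_zero] at hcon
    exact absurd hcon (not_lt.mpr (norm_nonneg _))
  apply h (-A / B)
  · rw [norm_div, norm_neg, div_lt_one (norm_pos_iff.mpr hB)]
    exact hcon
  · field_simp
    ring

/-- The limit `r → 1`. -/
theorem lim_one {a b : ℝ → ℝ} (ha : Continuous a) (hb : Continuous b)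
    (h : ∀ r : ℝ, 0 ≤ r → r < 1 → a r ≤ b r) : a 1 ≤ b 1 :=
  le_of_tendsto_of_tendsto ((ha.tendsto 1).mono_left (nhdsWithin_le_nhds (s := Set.Iio 1)))
    ((hb.tendsto 1).mono_left (nhdsWithin_le_nhds (s := Set.Iio 1))) (by
      have h4 : Set.Ioo (0:ℝ) 1 ∈ nhdsWithin (1:ℝ) (Set.Iio 1) := Ioo_mem_nhdsLT (by norm_num)
      filter_upwards [h4] with r hr
      exact h r hr.1.le hr.2)

section

variable {P L : Type} [Fintype P] [DecidableEq P] [AddCommGroup L] [Module.Free ℤ L]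
  [Module.Finite ℤ L] {phi : L →+ (P → ℤ)} {D : AO ℤ L} {q f E : ℤ[X]} {a : ℝ} {j : ℕ}
  {eta : L → (RO ℤ)ˣ} {C : Set L} {k : ℕ} {Z : ZMod (k + 3) → L} {mu : ZMod (k + 3) → L →+ ℤ}

/-- The face of `Z 0`, `Z 1`, `Z 3`, `psi = 0`. -/
theorem face_p5 (hF : FcmS) (H : OC.Oc phi D q f E a j eta C k Z mu) (hk : 2 ≤ k)
    (h4 : ∀ i, OC.Ar4 D eta Z (toLaurent (X * f)) 0 i) (w : Circle) (y0 y1 y3 : ℂ)
    (hy0 : ‖y0‖ < 1) (hy1 : ‖y1‖ < 1) (hy3 : ‖y3‖ < 1) :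
    (aeval (w : ℂ) q + w * aeval (w : ℂ) f * (y0 + y1 - y0 * y1)) +
      w * aeval (w : ℂ) f * y3 ≠ 0 := by
  have hko := H.kb.ko
  have hD : DD phi D := hko.min.fp.dd
  have h2 : 2 ≤ Module.finrank ℤ L := by
    rw [hko.rk]
    have := hko.j2
    omega
  have hR : ∀ i, Ray D (Z i) := fun i => (H.cyc.mtl i).r0
  have bZ : ∀ i, Bin phi (Z i) := fun i => hD.bin _ (hR i).1
  have n3 : ((3 : ℕ) : ZMod (k + 3)) = 3 := by norm_cast
  have n1 : ((1 : ℕ) : ZMod (k + 3)) = 1 := by norm_cast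
  have n0 : ((0 : ℕ) : ZMod (k + 3)) = 0 := by norm_cast
  have d01 : (0 : ZMod (k + 3)) ≠ 1 := by
    rw [← n0, ← n1, Ne, ZMod.natCast_eq_natCast_iff']
    rw [Nat.mod_eq_of_lt (by omega), Nat.mod_eq_of_lt (by omega)]
    omega
  have d03 : (0 : ZMod (k + 3)) ≠ 3 := by
    rw [← n0, ← n3, Ne, ZMod.natCast_eq_natCast_iff']
    rw [Nat.mod_eq_of_lt (by omega), Nat.mod_eq_of_lt (by omega)]
    omega
  have d13 : (1 : ZMod (k + 3)) ≠ 3 := by
    rw [← n1, ← n3, Ne, ZMod.natCast_eq_natCast_iff']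
    rw [Nat.mod_eq_of_lt (by omega), Nat.mod_eq_of_lt (by omega)]
    omega
  have h := face_multi hF hD h2 (Z 0) (Z 1) (fun _ : Fin 1 => Z 3) (eta (Z 0)) (eta (Z 1))
    (fun _ => eta (Z 3)) (bZ 0) (bZ 1) (fun _ => bZ 3) (hR 0).2.1 (hR 1).2.1
    (fun _ => (hR 3).2.1) (H.cyc.dis 0 1 d01) (fun _ p => H.cyc.dis 0 3 d03 p)
    (fun _ p => H.cyc.dis 1 3 d13 p)
    (fun i j hij => absurd (Subsingleton.elim i j) hij) w (fun _ => y3) y0 y1 (fun _ => hy3)
    hy0 hy1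
  have hu : (Finset.univ : Finset (Finset (Fin 1))) = {∅, {0}} := by decide
  rw [hu, Finset.sum_insert (by decide), Finset.sum_singleton] at h
  simp only [Finset.prod_empty, Finset.sum_empty, Finset.prod_singleton, Finset.sum_singleton,
    one_mul, mul_one, add_zero] at h
  have A4 := h4 0
  have g0 := congrArg (evR w) (H.co 0)
  have g1 := congrArg (evR w) (H.co 1)
  have g3 := congrArg (evR w) (H.co 3)
  have g01 := congrArg (evR w) A4.a0.s01
  have g03 := congrArg (evR w) A4.s03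
  have g13 := congrArg (evR w) A4.a1.s02
  have g013 := congrArg (evR w) A4.s013
  have e12 : (1 : ZMod (k + 3)) + 2 = 3 := by norm_num
  simp only [zero_add, e12, map_mul, map_neg, map_zero, neg_zero, evR_pl, aeval_X] at g0 g1 g3 g01 g03 g13 g013
  intro hcon
  apply h
  rw [hko.D0, evR_pl]
  rw [← hcon]
  linear_combination y0 * g0 + y1 * g1 + y3 * g3 + y0 * y1 * g01 + y0 * y3 * g03 +
    y1 * y3 * g13 + y0 * y1 * y3 * g013

/-- ROW OC_P5. -/
theorem p5S (hF : FcmS) (hVr : OC.VrS) : OC.P5S := by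
  intro P L _ _ _ _ _ phi D q f E a j eta C k Z mu H hk h4
  have hqz : ∀ z : ℂ, (aeval z q : ℂ) = aeval z f - z * aeval z E := by
    intro z
    have h3 : (aeval z (f - q) : ℂ) = aeval z (X * E) := by rw [H.eE]
    rw [map_sub, map_mul, aeval_X] at h3
    linear_combination -h3
  have hcir : ∀ z : ℂ, ‖z‖ = 1 → ∃ w : Circle, (w : ℂ) = z := fun z hz =>
    ⟨⟨z, by simpa [Submonoid.unitSphere] using hz⟩, rfl⟩
  have hr : ∀ (w : Circle) (r : ℝ), 0 ≤ r → r < 1 → ‖-(r : ℂ) * (w : ℂ)⁻¹‖ < 1 ∧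
      ‖(r : ℂ) * (w : ℂ)‖ < 1 := by
    intro w r h0 h1
    rw [norm_mul, norm_neg, norm_inv, norm_mul, Circle.norm_coe, Complex.norm_real,
      Real.norm_of_nonneg h0]
    simp [h1]
  have hw0 : ∀ w : Circle, (w : ℂ) ≠ 0 := fun w => Circle.coe_ne_zero w
  -- `|(1 + z) f| ≤ |E|`
  have hI : ∀ z : ℂ, ‖z‖ = 1 → ‖(aeval z ((1 + X) * f) : ℂ)‖ ≤ ‖(aeval z E : ℂ)‖ := by
    intro z hz
    obtain ⟨w, rfl⟩ := hcir z hz
    have h1 := lim_one (a := fun r : ℝ => ‖(w : ℂ) * aeval (w : ℂ) f * (1 + r * (w : ℂ)⁻¹)‖)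
      (b := fun r : ℝ => ‖aeval (w : ℂ) q + w * aeval (w : ℂ) f * (-r * (w : ℂ)⁻¹)‖)
      (by fun_prop) (by fun_prop) (fun r h0 h1 => le_of_ne fun y hy => by
        have h2 := face_p5 hF H hk h4 w (-r * (w : ℂ)⁻¹) y 0 (hr w r h0 h1).1 hy (by simp)
        intro h3
        apply h2
        refine Eq.trans ?_ h3
        ring)
    have hw := hw0 w
    have e1 : (w : ℂ) * aeval (w : ℂ) f * (1 + ((1 : ℝ) : ℂ) * (w : ℂ)⁻¹) =
        aeval (w : ℂ) ((1 + X) * f) := by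
      rw [map_mul, map_add, map_one, aeval_X]
      push_cast
      field_simp
      ring
    have e2 : (aeval (w : ℂ) q : ℂ) + w * aeval (w : ℂ) f * (-((1 : ℝ) : ℂ) * (w : ℂ)⁻¹) =
        -(w * aeval (w : ℂ) E) := by
      rw [hqz]
      push_cast
      field_simp
      ring
    rw [e1, e2, norm_neg, norm_mul, Circle.norm_coe, one_mul] at h1
    exact h1
  -- `|f| ≤ |V|`
  have hII : ∀ z : ℂ, ‖z‖ = 1 → ‖(aeval z f : ℂ)‖ ≤ ‖(aeval z (E - (1 + X) * f) : ℂ)‖ := by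
    intro z hz
    obtain ⟨w, rfl⟩ := hcir z hz
    have h1 := lim_one (a := fun _ : ℝ => ‖(w : ℂ) * aeval (w : ℂ) f‖)
      (b := fun r : ℝ => ‖aeval (w : ℂ) q + w * aeval (w : ℂ) f *
        (-r * (w : ℂ)⁻¹ + r * w - (-r * (w : ℂ)⁻¹) * (r * w))‖)
      (by fun_prop) (by fun_prop) (fun r h0 h1 => le_of_ne fun y hy =>
        face_p5 hF H hk h4 w (-r * (w : ℂ)⁻¹) (r * w) y (hr w r h0 h1).1 (hr w r h0 h1).2 hy)
    have hw := hw0 w
    have e2 : (aeval (w : ℂ) q : ℂ) + w * aeval (w : ℂ) f *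
        (-((1 : ℝ) : ℂ) * (w : ℂ)⁻¹ + ((1 : ℝ) : ℂ) * w - (-((1 : ℝ) : ℂ) * (w : ℂ)⁻¹) *
          (((1 : ℝ) : ℂ) * w)) = -(w * aeval (w : ℂ) (E - (1 + X) * f)) := by
      rw [hqz, map_sub, map_mul, map_add, map_one, aeval_X]
      push_cast
      field_simp
      ring
    rw [e2, norm_neg, norm_mul, norm_mul, Circle.norm_coe, one_mul, one_mul] at h1
    exact h1
  -- `V` has no zero in the disc
  have hj2 := H.kb.ko.j2
  have hVz : ∀ z : ℂ, ‖z‖ < 1 → (aeval z (E - (1 + X) * f) : ℂ) ≠ 0 := by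
    intro z hz h0
    have hsp : SP (((1 + X) * f).map (Int.castRingHom ℝ)) (E.map (Int.castRingHom ℝ)) := by
      apply SP.of_circle
      · intro z hz
        rw [aeval_map_real]
        exact H.Ez z hz
      · intro z hz
        rw [aeval_map_real, aeval_map_real]
        exact hI z hz
    have h2 : (aeval z (((1 + X) * f).map (Int.castRingHom ℝ)) : ℂ) =
        aeval z (E.map (Int.castRingHom ℝ)) := by
      rw [aeval_map_real, aeval_map_real]
      rw [map_sub] at h0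
      exact (sub_eq_zero.1 h0).symm
    have h3 := KE.sp_eq hsp hz h2
    have h4 := congrArg (fun r : ℝ[X] => r.coeff 0) h3
    simp only [coeff_map] at h4
    rw [mul_coeff_zero, H.f0, H.E0] at h4
    simp only [coeff_add, coeff_one_zero, coeff_X_zero, add_zero, mul_one] at h4
    have h5 : (1 : ℤ) = (j : ℤ) + 1 := (RingHom.injective_int (Int.castRingHom ℝ)) h4
    omega
  have hX : (X : ℤ[X]) * (E - (1 + X) * f) = (1 - X - X ^ 2) * f - q := by
    linear_combination -H.eE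
  have h0 : (toLaurent (X ^ 2 * 0 : ℤ[X]) : RO ℤ) = 0 := by rw [mul_zero, map_zero]
  obtain ⟨v1, v2, -⟩ := hVr P L phi D q f E 0 a j eta C k Z mu H hk (by rw [h0]; exact h4)
  have v3 := (v2 f (by ring) H.f0).2
  exact p5_one H.tp hX hVz hII (v1 f (by ring)) v3

end

end Pool.Agent.B5.OC89
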