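import Pool.Agent.Lib.MP_b5021c_nt.IfaceOC

/-!
# MP_b5021c_nt, K ODD, (O4), length at least five: the one-variable rows, pairs with the same `p`
-/

namespace Pool.Agent.B5.OC89

open Polynomial
open Pool.Agent.B5

theorem aC (t : ℝ) (n : ℤ) : (aeval t (C n) : ℝ) = n := by simp

/-- `F = F'` if `F`, `F'` have coefficients `0, 1, -1` and positive multiples coincide. -/
theorem uf_eq {F F' : ℤ[X]} {a b : ℤ} (ha : 1 ≤ a) (hb : 1 ≤ b) (hF : ∀ k, |F.coeff k| ≤ 1)
    (hF' : ∀ k, |F'.coeff k| ≤ 1) (h : C a * F = C b * F') : F = F' := by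
  ext k
  have h1 := congrArg (fun P => P.coeff k) h
  simp only [coeff_C_mul] at h1
  have h2 := abs_le.mp (hF k)
  have h3 := abs_le.mp (hF' k)
  rcases lt_trichotomy (F.coeff k) 0 with h4 | h4 | h4
  · have h5 : b * F'.coeff k < 0 := by rw [← h1]; nlinarith
    have h6 : F'.coeff k < 0 := by
      by_contra hcon
      push Not at hcon
      nlinarith
    omega
  · have h5 : b * F'.coeff k = 0 := by rw [← h1, h4, mul_zero]
    rcases mul_eq_zero.mp h5 with h6 | h6
    · omega
    · omega
  · have h5 : 0 < b * F'.coeff k := by rw [← h1]; nlinarith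
    have h6 : 0 < F'.coeff k := by
      by_contra hcon
      push Not at hcon
      nlinarith
    omega

/-- `a F` is a monomial: so is `F`. -/
theorem mono_of {F : ℤ[X]} {a t : ℤ} {k : ℕ} (ha : a ≠ 0) (h : C a * F = C t * X ^ k) :
    F = C (F.coeff k) * X ^ k := by
  ext i
  rw [coeff_C_mul, coeff_X_pow]
  by_cases hi : i = k
  · rw [hi]; simp
  · rw [if_neg hi, mul_zero]
    have h1 := congrArg (fun P => P.coeff i) h
    simp only [coeff_C_mul, coeff_X_pow, if_neg hi, mul_zero] at h1
    exact (mul_eq_zero.mp h1).resolve_left ha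

/-- Two pairs with the same `p`: binomials, or `g = g'`. -/
theorem bpx_two {N : ℕ} {p g g' : ℤ[X]} (h : Bpx N p g) (h' : Bpx N p g') :
    (∃ (k k' : ℕ) (t t' r r' : ℤ), 1 ≤ k ∧ 1 ≤ k' ∧ p = C (N : ℤ) + C t * X ^ k ∧
      p = C (N : ℤ) + C t' * X ^ k' ∧ g = 1 + C r * X ^ k ∧ g' = 1 + C r' * X ^ k') ∨ g = g' := by
  rcases h with ⟨k, t, r, hk, hp, hg⟩ | ⟨s, M, F, hs, hF, hp, hg⟩
  · rcases h' with ⟨k', t', r', hk', hp', hg'⟩ | ⟨s', M', F', hs', hF', hp', hg'⟩
    · exact Or.inl ⟨k, k', t, t', r, r', hk, hk', hp, hp', hg, hg'⟩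
    · have h1 : C ((s' : ℤ) + 1) * F' = C t * X ^ k := by
        have := hp.symm.trans hp'
        linear_combination -this
      refine Or.inl ⟨k, k, t, t, r, F'.coeff k, hk, hk, hp, hp, hg, ?_⟩
      rw [hg', ← mono_of (by positivity) h1]
  · rcases h' with ⟨k', t', r', hk', hp', hg'⟩ | ⟨s', M', F', hs', hF', hp', hg'⟩
    · have h1 : C ((s : ℤ) + 1) * F = C t' * X ^ k' := by
        have := hp'.symm.trans hp
        linear_combination -this
      refine Or.inl ⟨k', k', t', t', F.coeff k', r', hk', hk', hp', hp', ?_, hg'⟩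
      rw [hg, ← mono_of (by positivity) h1]
    · right
      have h1 : C ((s : ℤ) + 1) * F = C ((s' : ℤ) + 1) * F' := by
        have := hp.symm.trans hp'
        linear_combination this
      rw [hg, hg', uf_eq (by omega) (by omega) hF.2.2.1 hF'.2.2.1 h1]

/-- The exponents of two forms of a binomial. -/
theorem exp_eq {N : ℕ} {p : ℤ[X]} {k k' : ℕ} {t t' : ℤ} (hk : 1 ≤ k)
    (h : p = C (N : ℤ) + C t * X ^ k) (h' : p = C (N : ℤ) + C t' * X ^ k') (ht : t ≠ 0) :
    k = k' := by
  by_contra hne
  have h1 := congrArg (fun P => P.coeff k) (h.symm.trans h')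
  simp only [coeff_add, coeff_C_mul, coeff_X_pow, if_true, if_neg hne, mul_one, mul_zero,
    add_zero] at h1
  rw [coeff_C, if_neg (by omega : k ≠ 0)] at h1
  exact ht (by linarith)

/-- A binomial with a double zero at one. -/
theorem dbl {k k' : ℕ} {r r' c : ℤ} {Q : ℤ[X]}
    (h : C c + C r * X ^ k + C r' * X ^ k' = (1 - X) ^ 2 * Q) :
    c + r + r' = 0 ∧ (k : ℤ) * r + k' * r' = 0 := by
  constructor
  · have h1 := congrArg (eval 1) h
    simpa using h1
  · have h1 := congrArg (fun P => eval 1 (derivative P)) h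
    simp only [derivative_add, derivative_C, derivative_mul, derivative_X_pow, derivative_pow,
      derivative_sub, derivative_one, derivative_X, eval_add, eval_mul, eval_C, eval_X, eval_pow,
      one_pow, eval_sub, eval_one] at h1
    simp at h1
    linarith

/-- (OC_W4) -/
theorem w4S : OC.W4S := by
  intro q f E g1 g2 j x y hT hf hqE hE hg1 hg2 h1 h2
  have hX : (X : ℤ[X]) * (E - (1 + X) * f) = (1 - X - X ^ 2) * f - q := by
    linear_combination -hqE
  -- `g1 ≠ 1`, `g2 ≠ 1`
  have hdeg : ∀ Q : ℤ[X], (1 + X) * Q ≠ 1 := by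
    intro Q h
    have := congrArg (eval (-1)) h
    simp at this
  have e1 : g1 = (1 + X) * ((1 - X + X ^ 2) * f) := by rw [hg1]; ring
  have b1 := h1.1 (by rw [e1]; exact hdeg _)
  have b2 := h2.1 (by rw [hg2]; exact hdeg _)
  have hf0 : f ≠ 0 := by
    intro h
    rw [h] at hf
    simp at hf
  rcases bpx_two b1 b2 with ⟨k, k', t, t', r, r', hk, hk', hp, hp', hgr, hgr'⟩ | heq
  · -- the exponents
    have hm1 : 1 + r * (-1) ^ k = 0 := by
      have := congrArg (eval (-1)) (hgr.symm.trans e1)
      simpa using this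
    have hm2 : 1 + r' * (-1) ^ k' = 0 := by
      have := congrArg (eval (-1)) (hgr'.symm.trans hg2)
      simpa using this
    have hr : r ≠ 0 := by
      rintro rfl
      simp at hm1
    have hr' : r' ≠ 0 := by
      rintro rfl
      simp at hm2
    have hid : (1 : ℤ[X]) + C r * X ^ k = (1 - X + X ^ 2) * (1 + C r' * X ^ k') := by
      rw [← hgr, ← hgr', e1, hg2]; ring
    -- degrees
    have hdb : ∀ (r : ℤ) (k : ℕ), r ≠ 0 → 1 ≤ k → (1 + C r * X ^ k : ℤ[X]).natDegree = k := by
      intro r k hr hk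
      rw [add_comm, natDegree_add_eq_left_of_natDegree_lt, natDegree_C_mul_X_pow k r hr]
      rw [natDegree_C_mul_X_pow k r hr, natDegree_one]
      exact hk
    have hkk : k = 2 + k' := by
      have h3 := congrArg natDegree hid
      have hq2 : (1 - X + X ^ 2 : ℤ[X]).natDegree = 2 := by
        have : (1 - X + X ^ 2 : ℤ[X]) = C 1 * X ^ 2 + C (-1) * X + C 1 := by
          simp only [map_neg, map_one]; ring
        rw [this]
        exact natDegree_quadratic (by norm_num)
      have hne2 : (1 - X + X ^ 2 : ℤ[X]) ≠ 0 := by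
        intro h; rw [h] at hq2; simp at hq2
      have hne : (1 + C r' * X ^ k' : ℤ[X]) ≠ 0 := by
        intro h
        have := hdb r' k' hr' hk'
        rw [h] at this
        simp at this
        omega
      rw [hdb r k hr hk, natDegree_mul hne2 hne, hq2, hdb r' k' hr' hk'] at h3
      exact h3
    have hc1 := congrArg (fun P => P.coeff 1) hid
    have hk1 : (1 : ℕ) ≠ k := by omega
    have hc2 : ((1 - X + X ^ 2) * (1 + C r' * X ^ k') : ℤ[X]).coeff 1 =
        -1 + if 1 = k' then r' else 0 := by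
      have : ((1 - X + X ^ 2) * (1 + C r' * X ^ k') : ℤ[X]) =
          1 - X + X ^ 2 + C r' * X ^ k' - C r' * X ^ (k' + 1) + C r' * X ^ (k' + 2) := by ring
      rw [this]
      simp only [coeff_add, coeff_sub, coeff_C_mul, coeff_X_pow, coeff_one, coeff_X,
        if_neg (show (1 : ℕ) ≠ k' + 1 by omega), if_neg (show (1 : ℕ) ≠ k' + 2 by omega)]
      by_cases h6 : 1 = k'
      · simp [← h6]
      · simp [h6]
    rw [hc2] at hc1
    simp only [coeff_add, coeff_C_mul, coeff_X_pow, coeff_one, if_neg hk1] at hc1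
    have hk'1 : k' = 1 := by
      by_contra hne
      rw [if_neg (Ne.symm hne)] at hc1
      simp at hc1
    subst hk'1
    have hr'1 : r' = 1 := by
      simp at hc1
      linarith
    subst hr'1
    have hk3 : k = 3 := by omega
    subst hk3
    have ht : t = 0 := by
      by_contra hne
      have := exp_eq hk hp hp' hne
      omega
    have hf1 : f = 1 := by
      have h3 : (1 + X : ℤ[X]) * f = (1 + X) * 1 := by
        rw [← hg2, hgr']; simp
      have hne : (1 + X : ℤ[X]) ≠ 0 := by
        intro h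
        have := congrArg (fun P => P.coeff 0) h
        simp at this
      exact mul_left_cancel₀ hne h3
    rw [ht, map_zero, zero_mul, add_zero] at hp
    rw [hp, hf1] at hX
    have h4 : q = 1 - X - X ^ 2 - X * C (j : ℤ) := by rw [hX]; ring
    have h5 := hT.I
    rw [h4] at h5
    simp only [map_sub, map_mul, map_one, aeval_X, map_pow, aC, Int.cast_natCast] at h5
    have h6 := hT.hx
    nlinarith [sq_nonneg x]
  · -- `g1 = g2`
    rw [hg1, hg2] at heq
    have h3 : (X ^ 3 - X : ℤ[X]) * f = 0 := by linear_combination heq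
    rcases mul_eq_zero.mp h3 with h4 | h4
    · have := congrArg (fun P => P.coeff 1) h4
      simp [coeff_X_pow] at this
    · exact hf0 h4

end Pool.Agent.B5.OC89
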