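import Pool.Agent.Lib.MP_b5021c_nt.OC.H89.Pair

/-!
# MP_b5021c_nt, K ODD, (O4), length at least five: row OC_W3 (`W3S`)
-/

namespace Pool.Agent.B5.OC89

open Polynomial
open Pool.Agent.B5
open Pool.Agent.B5.O4U (tail_one up_neg lo_one coeff_cases)

/-- Two binomials whose difference has a double zero at one are equal. -/
theorem bin_eq {g g' Q : ℤ[X]} {k k' : ℕ} {r r' : ℤ} (h : g = 1 + C r * X ^ k)
    (h' : g' = 1 + C r' * X ^ k') (hQ : g - g' = (1 - X) ^ 2 * Q) : g = g' := by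
  have h1 : C 0 + C r * X ^ k + C (-r') * X ^ k' = (1 - X) ^ 2 * Q := by
    rw [← hQ, h, h', map_zero, map_neg]; ring
  obtain ⟨h2, h3⟩ := dbl h1
  have h4 : r' = r := by linarith
  rw [h4] at h3 h'
  have h5 : r * ((k : ℤ) - k') = 0 := by linear_combination h3
  rcases mul_eq_zero.mp h5 with h6 | h6
  · rw [h, h', h6]; simp
  · have : k = k' := by
      have : (k : ℤ) = k' := by linarith
      exact_mod_cast this
    rw [h, h', this]

/-- The case `g1 = 1`, `g3 = 1 + F`, `V = j + sg F`, `sg ≥ 2`. -/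
theorem v3_one {q f d V F : ℤ[X]} {j sg : ℕ} {x y : ℝ} (hT : O4X.Tp j q f x y)
    (hX : X * V = (1 - X - X ^ 2) * f - q) (hs : 2 ≤ sg) (hsj : sg + 2 ≤ j)
    (F0 : F.coeff 0 = 0) (Fk : ∀ k, |F.coeff k| ≤ 1) (hV : V = C (j : ℤ) + C (sg : ℤ) * F)
    (hf : f = 1 - X ^ 3 * d) (hF : F = -((1 - X) ^ 2 * (1 + X) * d)) : False := by
  have hq : q = (1 - X - X ^ 2) * f - X * V := by rw [hX]; ring
  have e : ∀ t : ℝ, (aeval t q : ℝ) = (1 - t - t ^ 2) * (1 - t ^ 3 * aeval t d) -
      t * (j + sg * aeval t F) := by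
    intro t
    rw [hq, hV, hf]
    simp only [map_sub, map_mul, map_add, map_one, aeval_X, map_pow, aC, Int.cast_natCast]
  have ef : ∀ t : ℝ, (aeval t f : ℝ) = 1 - t ^ 3 * aeval t d := by
    intro t
    rw [hf]
    simp only [map_sub, map_mul, map_one, aeval_X, map_pow]
  have eF : ∀ t : ℝ, (aeval t F : ℝ) = -((1 - t) ^ 2 * (1 + t) * aeval t d) := by
    intro t
    rw [hF]
    simp only [map_neg, map_sub, map_mul, map_add, map_one, aeval_X, map_pow]
  have hx0 := hT.x0
  have hy0 := hT.y0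
  have hx := hT.hx
  have hy := hT.hy
  have hj' : (4 : ℝ) ≤ j := by exact_mod_cast (by omega : 4 ≤ j)
  have hs' : (2 : ℝ) ≤ sg := by exact_mod_cast hs
  have hsj' : (sg : ℝ) + 2 ≤ j := by exact_mod_cast hsj
  have hx5 : x ≤ 1 / 5 := by nlinarith
  have hy4 : y ≤ 1 / 4 := by nlinarith
  have hI := hT.I
  have hII := hT.II
  rw [e] at hI hII
  rw [ef] at hII
  have eFx := eF x
  have eFy := eF y
  obtain ⟨dx, hdx⟩ : ∃ dx : ℝ, dx = (aeval x d : ℝ) := ⟨_, rfl⟩
  obtain ⟨dy, hdy⟩ : ∃ dy : ℝ, dy = (aeval y d : ℝ) := ⟨_, rfl⟩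
  obtain ⟨c, hc⟩ : ∃ c : ℝ, c = (1 - x) ^ 2 * (1 + x) := ⟨_, rfl⟩
  rw [← hdx] at hI eFx
  rw [← hdy] at hII eFy
  rw [← hc] at eFx
  have hc0 : 0 < c := by
    rw [hc]
    have : 0 < 1 - x := by linarith
    positivity
  have hc1 : 16 / 25 ≤ c := by
    rw [hc]
    have h1 : (4 / 5 : ℝ) ^ 2 ≤ (1 - x) ^ 2 := pow_le_pow_left₀ (by norm_num) (by linarith) 2
    nlinarith
  -- (A)
  have hA : x < dx * (sg * c - x ^ 2 * (1 - x - x ^ 2)) := by
    have h2 : x * j = 1 - x := by linarith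
    have h3 : 0 < x * (dx * (sg * c - x ^ 2 * (1 - x - x ^ 2)) - x) := by
      have : x * (dx * (sg * c - x ^ 2 * (1 - x - x ^ 2)) - x) =
          (1 - x - x ^ 2) * (1 - x ^ 3 * dx) - x * (j + sg * aeval x F) := by
        rw [eFx]
        linear_combination h2
      rw [this]
      exact hI
    have h4 := (mul_pos_iff_of_pos_left hx0).mp h3
    linarith
  have hL : 0 ≤ x ^ 2 * (1 - x - x ^ 2) := by
    apply mul_nonneg (sq_nonneg x)
    nlinarith
  have hB : 0 < sg * c - x ^ 2 * (1 - x - x ^ 2) := by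
    have h1 : x ^ 2 * (1 - x - x ^ 2) ≤ x ^ 2 * 1 :=
      mul_le_mul_of_nonneg_left (by nlinarith) (sq_nonneg x)
    have h2 : x ^ 2 ≤ (1 / 5) ^ 2 := pow_le_pow_left₀ hx0.le hx5 2
    have h3 : 2 * c ≤ sg * c := mul_le_mul_of_nonneg_right hs' hc0.le
    linarith
  have hdx0 : 0 < dx := by
    by_contra hcon
    push Not at hcon
    nlinarith
  have hFx : (aeval x F : ℝ) < 0 := by
    rw [eFx]
    have := mul_pos hc0 hdx0
    linarith
  rcases coeff_cases Fk with hF1 | hF1
  · have h1 := lo_one F0 Fk hx0 (by linarith) hF1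
    have h2 : 0 < x * (1 - 2 * x) := mul_pos hx0 (by linarith)
    nlinarith
  · rcases eq_or_ne (F.coeff 1) 0 with h0 | h0
    · have h1 := (abs_le.mp (tail_one F0 Fk hx0 (by linarith))).1
      rw [h0, eFx] at h1
      push_cast at h1
      have h2 : (1 - x) * (c * dx) ≤ x ^ 2 := by linarith
      have h3 : x < sg * (c * dx) := by
        have := mul_nonneg hdx0.le hL
        nlinarith
      have h4 : x * (1 - x) < sg * x ^ 2 := by
        calc x * (1 - x) < sg * (c * dx) * (1 - x) := mul_lt_mul_of_pos_right h3 (by linarith)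
          _ = sg * ((1 - x) * (c * dx)) := by ring
          _ ≤ sg * x ^ 2 := mul_le_mul_of_nonneg_left h2 (by linarith)
      have h5 : 1 - x < sg * x := by
        have : x * (1 - x) < x * (sg * x) := by linarith [h4, (by ring : (sg : ℝ) * x ^ 2 = x * (sg * x))]
        exact lt_of_mul_lt_mul_left this hx0.le
      nlinarith
    · have hm : F.coeff 1 = -1 := by
        have := abs_le.mp (Fk 1)
        omega
      have h1 := (abs_le.mp (tail_one F0 Fk hy0 (by linarith))).2
      rw [hm] at h1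
      push_cast at h1
      obtain ⟨G, hG⟩ : ∃ G : ℝ, G = -(aeval y F : ℝ) := ⟨_, rfl⟩
      have hFy : (aeval y F : ℝ) = -G := by rw [hG]; ring
      rw [hFy] at h1 hII eFy
      have h2 : y * (1 - 2 * y) ≤ (1 - y) * G := by linarith
      have h3 : G * (sg * (1 - y) - y ^ 2) ≤ y * (1 - y) := by
        have h5 : y * (G * (sg * (1 - y) - y ^ 2)) ≤ y * (y * (1 - y)) := by
          have h6 : (1 - y) * ((1 - y - y ^ 2) * (1 - y ^ 3 * dy) - y * (j + sg * -G) +
              y * (1 - y ^ 3 * dy)) ≤ 0 := mul_nonpos_of_nonneg_of_nonpos (by linarith) hII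
          have h7 : (1 - y) * ((1 - y - y ^ 2) * (1 - y ^ 3 * dy) - y * (j + sg * -G) +
              y * (1 - y ^ 3 * dy)) = y * (G * (sg * (1 - y) - y ^ 2)) - y * (y * (1 - y)) := by
            linear_combination (-(y ^ 3)) * eFy - (1 - y) * hy
          linarith
        exact le_of_mul_le_mul_left h5 hy0
      have hb : 0 < sg * (1 - y) - y ^ 2 := by nlinarith
      have h4 : y * (1 - 2 * y) * (sg * (1 - y) - y ^ 2) ≤ y * (1 - y) ^ 2 := by
        calc y * (1 - 2 * y) * (sg * (1 - y) - y ^ 2) ≤ (1 - y) * G * (sg * (1 - y) - y ^ 2) :=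
              mul_le_mul_of_nonneg_right h2 hb.le
          _ = (1 - y) * (G * (sg * (1 - y) - y ^ 2)) := by ring
          _ ≤ (1 - y) * (y * (1 - y)) := mul_le_mul_of_nonneg_left h3 (by linarith)
          _ = y * (1 - y) ^ 2 := by ring
      have h5 : (1 - 2 * y) * (sg * (1 - y) - y ^ 2) ≤ (1 - y) ^ 2 := by
        have : y * ((1 - 2 * y) * (sg * (1 - y) - y ^ 2)) ≤ y * (1 - y) ^ 2 := by linarith
        exact le_of_mul_le_mul_left this hy0
      have h6 : (1 - 2 * y) * (2 * (1 - y) - y ^ 2) ≤ (1 - 2 * y) * (sg * (1 - y) - y ^ 2) := by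
        apply mul_le_mul_of_nonneg_left _ (by linarith)
        nlinarith
      nlinarith [sq_nonneg y, pow_pos hy0 3, pow_pos hy0 2]

/-- The case `g3 = 1`, `g1 = 1 + F`, `V = j + sg F`: `F_1 = 1` and `j = 3`. -/
theorem w3_two {q f d V F : ℤ[X]} {j sg : ℕ} {x y : ℝ} (hT : O4X.Tp j q f x y)
    (hX : X * V = (1 - X - X ^ 2) * f - q) (hs : 1 ≤ sg) (hsj : sg + 2 ≤ j)
    (F0 : F.coeff 0 = 0) (Fk : ∀ k, |F.coeff k| ≤ 1) (hV : V = C (j : ℤ) + C (sg : ℤ) * F)
    (hf : f = 1 + (1 - X - X ^ 2) * d) (hF : F = (1 - X) ^ 2 * (1 + X) * d) :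
    F.coeff 1 = 1 ∧ j = 3 := by
  have hq : q = (1 - X - X ^ 2) * f - X * V := by rw [hX]; ring
  have e : ∀ t : ℝ, (aeval t q : ℝ) = (1 - t - t ^ 2) * (1 + (1 - t - t ^ 2) * aeval t d) -
      t * (j + sg * aeval t F) := by
    intro t
    rw [hq, hV, hf]
    simp only [map_sub, map_mul, map_add, map_one, aeval_X, map_pow, aC, Int.cast_natCast]
  have ef : ∀ t : ℝ, (aeval t f : ℝ) = 1 + (1 - t - t ^ 2) * aeval t d := by
    intro t
    rw [hf]
    simp only [map_sub, map_mul, map_add, map_one, aeval_X, map_pow]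
  have eF : ∀ t : ℝ, (aeval t F : ℝ) = (1 - t) ^ 2 * (1 + t) * aeval t d := by
    intro t
    rw [hF]
    simp only [map_sub, map_mul, map_add, map_one, aeval_X, map_pow]
  have hx0 := hT.x0
  have hy0 := hT.y0
  have hx := hT.hx
  have hy := hT.hy
  have hj' : (3 : ℝ) ≤ j := by exact_mod_cast (by omega : 3 ≤ j)
  have hs' : (1 : ℝ) ≤ sg := by exact_mod_cast hs
  have hsj' : (sg : ℝ) + 2 ≤ j := by exact_mod_cast hsj
  have hx5 : x ≤ 1 / 4 := by nlinarith
  have hy3 : y ≤ 1 / 3 := by nlinarith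
  have hI := hT.I
  have hII := hT.II
  rw [e] at hI hII
  rw [ef] at hII
  have eFx := eF x
  have eFy := eF y
  obtain ⟨dx, hdx⟩ : ∃ dx : ℝ, dx = (aeval x d : ℝ) := ⟨_, rfl⟩
  obtain ⟨dy, hdy⟩ : ∃ dy : ℝ, dy = (aeval y d : ℝ) := ⟨_, rfl⟩
  rw [← hdx] at hI eFx
  rw [← hdy] at hII eFy
  have hsx : (sg : ℝ) * x ≤ 1 - 3 * x := by nlinarith
  have hsy : (sg : ℝ) * y ≤ 1 - 2 * y := by nlinarith
  have hc0 : 0 < (1 - x) ^ 2 * (1 + x) := by
    have : 0 < 1 - x := by linarith
    positivity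
  -- (A)
  have hA : x ^ 2 < dx * ((1 - x - x ^ 2) ^ 2 - sg * x * ((1 - x) ^ 2 * (1 + x))) := by
    have h3 : (1 - x - x ^ 2) * (1 + (1 - x - x ^ 2) * dx) - x * (j + sg * aeval x F) =
        dx * ((1 - x - x ^ 2) ^ 2 - sg * x * ((1 - x) ^ 2 * (1 + x))) - x ^ 2 := by
      rw [eFx]
      linear_combination (-1 : ℝ) * hx
    rw [h3] at hI
    linarith
  have hB : 0 < (1 - x - x ^ 2) ^ 2 - sg * x * ((1 - x) ^ 2 * (1 + x)) := by
    have h1 : sg * x * ((1 - x) ^ 2 * (1 + x)) ≤ (1 - 3 * x) * ((1 - x) ^ 2 * (1 + x)) :=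
      mul_le_mul_of_nonneg_right hsx hc0.le
    have h2 : 0 < x * (2 - 3 * x - 2 * x ^ 2 + 4 * x ^ 3) := by
      apply mul_pos hx0
      have := pow_pos hx0 3
      nlinarith
    nlinarith
  have hdx0 : 0 < dx := by
    by_contra hcon
    push Not at hcon
    nlinarith [sq_nonneg x]
  rcases coeff_cases Fk with hF1 | hF1
  · refine ⟨hF1, ?_⟩
    by_contra hj3
    have hj4 : (4 : ℝ) ≤ j := by exact_mod_cast (by omega : 4 ≤ j)
    have hy4 : y ≤ 1 / 4 := by nlinarith
    have h1 := lo_one F0 Fk hy0 (by linarith) hF1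
    rw [eFy] at h1
    have h3 : (1 - y - y ^ 2) * (1 + (1 - y - y ^ 2) * dy) - y * (j + sg * aeval y F) +
        y * (1 + (1 - y - y ^ 2) * dy) =
        dy * ((1 - y ^ 2) * (1 - y - y ^ 2) - sg * y * ((1 - y) ^ 2 * (1 + y))) - y ^ 2 := by
      rw [eFy]
      linear_combination (-1 : ℝ) * hy
    rw [h3] at hII
    have hcy : 0 < (1 - y) ^ 2 * (1 + y) := by
      have : 0 < 1 - y := by linarith
      positivity
    have h1y : 0 < 1 - y := by linarith
    have hdy0 : 0 < dy := by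
      have h4 : 0 < y * (1 - 2 * y) := mul_pos hy0 (by linarith)
      by_contra hcon
      push Not at hcon
      have h5 : (1 - y) * ((1 - y) ^ 2 * (1 + y) * dy) ≤ 0 :=
        mul_nonpos_of_nonneg_of_nonpos h1y.le (mul_nonpos_of_nonneg_of_nonpos hcy.le hcon)
      linarith
    have h4 : (1 - y ^ 2) * (y * (2 - 3 * y)) ≤
        (1 - y ^ 2) * (1 - y - y ^ 2) - sg * y * ((1 - y) ^ 2 * (1 + y)) := by
      have h5 : sg * y * ((1 - y) ^ 2 * (1 + y)) ≤ (1 - 2 * y) * ((1 - y) ^ 2 * (1 + y)) :=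
        mul_le_mul_of_nonneg_right hsy hcy.le
      nlinarith
    have h5 : dy * ((1 - y ^ 2) * (y * (2 - 3 * y))) ≤ y ^ 2 := by
      have := mul_le_mul_of_nonneg_left h4 hdy0.le
      linarith
    have h6 : dy * ((1 - y ^ 2) * (2 - 3 * y)) ≤ y := by
      have : y * (dy * ((1 - y ^ 2) * (2 - 3 * y))) ≤ y * y := by linarith
      exact le_of_mul_le_mul_left this hy0
    have h7 : y * (1 - 2 * y) * (2 - 3 * y) ≤ y * (1 - y) ^ 2 := by
      calc y * (1 - 2 * y) * (2 - 3 * y) ≤
          (1 - y) * ((1 - y) ^ 2 * (1 + y) * dy) * (2 - 3 * y) :=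
            mul_le_mul_of_nonneg_right h1 (by linarith)
        _ = dy * ((1 - y ^ 2) * (2 - 3 * y)) * (1 - y) ^ 2 := by ring
        _ ≤ y * (1 - y) ^ 2 := mul_le_mul_of_nonneg_right h6 (sq_nonneg _)
    have h8 : (1 - 2 * y) * (2 - 3 * y) ≤ (1 - y) ^ 2 := by
      have : y * ((1 - 2 * y) * (2 - 3 * y)) ≤ y * (1 - y) ^ 2 := by linarith
      exact le_of_mul_le_mul_left this hy0
    nlinarith
  · exfalso
    have h1 := up_neg F0 Fk hx0 (by linarith) hF1
    rw [eFx] at h1
    have h2 : (1 - x - x ^ 2) ^ 2 - sg * x * ((1 - x) ^ 2 * (1 + x)) ≤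
        (1 - x) * ((1 - x) ^ 2 * (1 + x)) := by
      have h3 : 1 * x * ((1 - x) ^ 2 * (1 + x)) ≤ sg * x * ((1 - x) ^ 2 * (1 + x)) := by
        apply mul_le_mul_of_nonneg_right _ hc0.le
        exact mul_le_mul_of_nonneg_right hs' hx0.le
      have h4 : 0 ≤ x * (1 - x ^ 2 - x ^ 3) := by
        apply mul_nonneg hx0.le
        have h5 : x ^ 2 ≤ (1 / 4) ^ 2 := pow_le_pow_left₀ hx0.le hx5 2
        have h6 : x ^ 3 ≤ (1 / 4) ^ 3 := pow_le_pow_left₀ hx0.le hx5 3
        norm_num at h5 h6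
        linarith
      nlinarith
    have h3 := mul_le_mul_of_nonneg_left h2 hdx0.le
    nlinarith

/-- The value at one of a Laurent identity. -/
theorem ev1 {P Q : ℤ[X]} {s n : ℤ} (h : toLaurent P =
    LaurentPolynomial.C s * LaurentPolynomial.T n * toLaurent Q) : P.eval 1 = s * Q.eval 1 := by
  obtain ⟨m, rfl | rfl⟩ := n.eq_nat_or_neg
  · have h1 : P = C s * X ^ m * Q := by
      apply toLaurent_injective
      rw [h, map_mul, map_mul, toLaurent_C, toLaurent_X_pow]
    rw [h1]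
    simp
  · have h1 : X ^ m * P = C s * Q := by
      apply toLaurent_injective
      have h2 : (LaurentPolynomial.T (m : ℤ) : LaurentPolynomial ℤ) * LaurentPolynomial.T (-m) = 1 := by
        rw [← LaurentPolynomial.T_add]; simp
      rw [map_mul, map_mul, toLaurent_C, toLaurent_X_pow, h]
      linear_combination (LaurentPolynomial.C s * toLaurent Q) * h2
    have h3 := congrArg (eval 1) h1
    simpa using h3

/-- (OC_W3) -/
theorem w3S : OC.W3S := by
  intro q f E γ g1 g3 j x y hT hf hqE hE hγ hg1 hg3 h1 h3 hD hS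
  obtain ⟨V, hV⟩ : ∃ V : ℤ[X], V = E - (1 + X) * f := ⟨_, rfl⟩
  rw [← hV] at h1 h3 hD hS
  have hX : (X : ℤ[X]) * V = (1 - X - X ^ 2) * f - q := by
    rw [hV]
    linear_combination -hqE
  obtain ⟨d, hd⟩ : ∃ d : ℤ[X], d = f - γ := ⟨_, rfl⟩
  rw [← hd] at hg1 hg3 hS
  have hdiff : g1 - g3 = (1 - X) ^ 2 * ((1 + X) * d) := by rw [hg1, hg3]; ring
  by_contra hne
  have hd0 : d ≠ 0 := by
    rw [hd]
    exact sub_ne_zero.mpr hne
  have hg13 : g1 ≠ g3 := by
    intro h
    rw [h, sub_self] at hdiff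
    have h4 : ((1 - X) ^ 2 * (1 + X) : ℤ[X]) ≠ 0 := by
      intro h5
      have := congrArg (eval 0) h5
      simp at this
    have h5 : ((1 - X) ^ 2 * (1 + X) : ℤ[X]) * d = 0 := by rw [hdiff]; ring
    exact (mul_ne_zero h4 hd0) h5
  have hbb : ∀ (k k' : ℕ) (r r' : ℤ), g1 = 1 + C r * X ^ k → g3 = 1 + C r' * X ^ k' → False :=
    fun k k' r r' e1 e2 => hg13 (bin_eq e1 e2 hdiff)
  have hone : ∀ k : ℕ, (1 : ℤ[X]) = 1 + C 0 * X ^ k := fun k => by simp
  by_cases hg1' : g1 = 1
  · have hg3' : g3 ≠ 1 := by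
      intro h
      exact hg13 (hg1'.trans h.symm)
    rcases h3.1 hg3' with ⟨k, t, r, hk, -, hgr⟩ | ⟨s, M, F, hs, hF, hp, hgF⟩
    · exact hbb 1 k 0 r (by rw [hg1']; exact hone 1) hgr
    · have hM := hF.1
      have hs1 : 1 ≤ s := by
        by_contra hcon
        have hs0 : s = 0 := by omega
        rcases hD hg3' with ⟨k, t, r, hk, -, hgr⟩ |
          ⟨k, t, r, hk, -, hgr⟩ | ⟨s', M', F', hs', hF', hp', hgF'⟩
        · exact hbb 1 k 0 r (by rw [hg1']; exact hone 1) hgr
        · exact hbb 1 k 0 r (by rw [hg1']; exact hone 1) hgr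
        · have hFF : F' = F := by
            have := hgF.symm.trans hgF'
            exact (add_left_cancel this).symm
          rw [hFF] at hp'
          rw [hp, hgF, hs0] at hp'
          have h5 : C ((s' : ℤ) + 1) * F = 0 := by
            have h6 : ((j - 1 : ℕ) : ℤ) = (j : ℤ) - 1 := by
              have := hT.j2
              omega
            rw [h6] at hp'
            simp only [map_sub, map_one, Nat.cast_zero, zero_add, map_add] at hp' ⊢
            linear_combination -hp'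
          have h6 : F = 0 := by
            rcases mul_eq_zero.mp h5 with h7 | h7
            · exfalso
              have := C_eq_zero.mp h7
              omega
            · exact h7
          exact hg3' (by rw [hgF, h6, add_zero])
      refine v3_one (sg := s + 1) (d := d) (F := F) hT hX (by omega) (by omega) hF.2.1 hF.2.2.1
        (by push_cast; exact hp) ?_ ?_
      · rw [hg1'] at hg1
        linear_combination -hg1
      · have h5 : F = g3 - g1 := by rw [hgF, hg1']; ring
        rw [h5]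
        linear_combination -hdiff
  · by_cases hg3' : g3 = 1
    · rcases h1.1 hg1' with ⟨k, t, r, hk, -, hgr⟩ | ⟨s, M, F, hs, hF, hp, hgF⟩
      · exact hbb k 1 r 0 hgr (by rw [hg3']; exact hone 1)
      · have hM := hF.1
        have ef : f = 1 + (1 - X - X ^ 2) * d := by
          rw [hg3'] at hg3
          linear_combination -hg3
        have eF : F = (1 - X) ^ 2 * (1 + X) * d := by
          have h5 : F = g1 - g3 := by rw [hgF, hg3']; ring
          rw [h5]
          linear_combination hdiff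
        obtain ⟨hF1, hj3⟩ := w3_two (sg := s + 1) (d := d) (F := F) hT hX (by omega) (by omega)
          hF.2.1 hF.2.2.1 (by push_cast; exact hp) ef eF
        have hs0 : s = 0 := by omega
        -- `d = X r'`
        have hdc : d.coeff 0 = 0 := by rw [hd, coeff_sub, hf, hγ]; norm_num
        have hdX : d = X * d.divX := by
          conv_lhs => rw [(X_mul_divX_add d).symm, hdc, map_zero, add_zero]
        have hr0 : d.divX.coeff 0 = 1 := by
          have h5 : F = X * ((1 - X) ^ 2 * (1 + X) * d.divX) := by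
            rw [eF]
            conv_lhs => rw [hdX]
            ring
          rw [h5, coeff_X_mul, mul_coeff_zero] at hF1
          have h6 : ((1 - X) ^ 2 * (1 + X) : ℤ[X]).coeff 0 = 1 := by
            rw [coeff_zero_eq_eval_zero]; simp
          rw [h6, one_mul] at hF1
          exact hF1
        have hVc : V = 3 + F := by
          rw [hp, hs0, hj3]; simp
        have hF0 : F.coeff 0 = 0 := hF.2.1
        rcases hS d.divX hdX (by
          rw [hVc, coeff_sub, coeff_sub, coeff_add, hF0, hf, hr0]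
          simp) with h5 | ⟨s', n, hs', h5⟩
        · exact hd0 h5
        · have h6 := ev1 h5
          have h7 : d.eval 1 = d.divX.eval 1 := by
            conv_lhs => rw [hdX]
            simp
          have h8 : F.eval 1 = 0 := by rw [eF]; simp
          rw [hVc, ef] at h6
          simp only [eval_mul, eval_sub, eval_add, eval_one, eval_X, eval_pow, h8, ← h7,
            one_pow, sub_self, mul_zero] at h6
          have h9 : (eval 1 (3 : ℤ[X])) = 3 := by
            rw [show (3 : ℤ[X]) = C 3 from rfl, eval_C]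
          rw [h9] at h6
          rcases hs' with rfl | rfl
          · linarith
          · linarith
    · rcases bpx_two (h1.1 hg1') (h3.1 hg3') with ⟨k, k', t, t', r, r', -, -, -, -, e1, e2⟩ | heq
      · exact hbb k k' r r' e1 e2
      · exact hg13 heq

end Pool.Agent.B5.OC89
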