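import Pool.Agent.Lib.MP_b5021c_nt.IfaceOC
import Pool.Agent.Lib.MP_b5021c_nt.KO.H95.V1

/-!
# MP_b5021c_nt, K ODD, (O4), length at least five, `psi = 0`: the one-variable half of row OC_P5
-/

namespace Pool.Agent.B5.OC89

open Polynomial
open Pool.Agent.B5
open Pool.Agent.B5.KO.H95 (t_ge one_le neg_le aCc)

/-- `t ≤ j` if `j + t z^k` has no zero in the disc. -/
theorem t_le {j k : ℕ} {t : ℤ} (hk : 1 ≤ k)
    (hz : ∀ z : ℂ, ‖z‖ < 1 → (aeval z (C (j : ℤ) + C t * X ^ k : ℤ[X]) : ℂ) ≠ 0) :
    t ≤ (j : ℤ) := by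
  by_contra hcon
  push Not at hcon
  have h1 : (j : ℝ) < t := by exact_mod_cast hcon
  have hj0 : (0 : ℝ) ≤ j := by positivity
  have ht0 : (0 : ℝ) < t := by linarith
  obtain ⟨z, hzk⟩ := IsAlgClosed.exists_pow_nat_eq (-(j : ℂ) / (t : ℂ)) (by omega : 0 < k)
  have htc : (t : ℂ) ≠ 0 := by exact_mod_cast ht0.ne'
  apply hz z
  · have h2 : ‖z‖ ^ k = (j : ℝ) / t := by
      rw [← norm_pow, hzk, norm_div, norm_neg, Complex.norm_natCast, Complex.norm_intCast,
        abs_of_pos ht0]
    by_contra h3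
    push Not at h3
    have h4 : 1 ≤ ‖z‖ ^ k := one_le_pow₀ h3
    rw [h2, le_div_iff₀ ht0] at h4
    linarith
  · rw [map_add, map_mul, map_pow, aeval_X, aCc, aCc, hzk]
    field_simp
    push_cast
    ring

/-- The binomial case. -/
theorem p5_bin {q f V : ℤ[X]} {j k : ℕ} {t r : ℤ} {x y : ℝ} (hT : O4X.Tp j q f x y)
    (hX : X * V = (1 - X - X ^ 2) * f - q) (hVz : ∀ z : ℂ, ‖z‖ < 1 → (aeval z V : ℂ) ≠ 0)
    (hle : ∀ z : ℂ, ‖z‖ = 1 → ‖(aeval z f : ℂ)‖ ≤ ‖(aeval z V : ℂ)‖) (hk : 1 ≤ k)
    (hV : V = C (j : ℤ) + C t * X ^ k) (hf : f = 1 + C r * X ^ k) : False := by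
  have hj2 := hT.j2
  rw [hV] at hVz hle
  rw [hf] at hle
  have b1 := t_ge (by omega) hk hVz
  have b2 := t_le hk hVz
  have b3 := one_le hle
  have b4 := neg_le hk hle
  rw [abs_of_nonneg (by omega : 0 ≤ (j : ℤ) + t)] at b3
  rw [abs_of_nonneg (by omega : 0 ≤ (j : ℤ) - t)] at b4
  obtain ⟨b5, b6⟩ := abs_le.mp b3
  obtain ⟨b7, b8⟩ := abs_le.mp b4
  have hq : q = (1 - X - X ^ 2) * f - X * V := by rw [hX]; ring
  have e : ∀ v : ℝ, (aeval v q : ℝ) = (1 - v - v ^ 2) * (1 + r * v ^ k) - v * (j + t * v ^ k) := by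
    intro v
    rw [hq, hV, hf]
    simp only [map_sub, map_mul, map_add, map_one, aeval_X, map_pow, aeval_C]
    simp
  have ef : ∀ v : ℝ, (aeval v f : ℝ) = 1 + r * v ^ k := by
    intro v
    rw [hf]
    simp only [map_mul, map_add, map_one, aeval_X, map_pow, aeval_C]
    simp
  have hI := hT.I
  have hII := hT.II
  rw [e] at hI hII
  rw [ef] at hII
  have hx0 := hT.x0
  have hy0 := hT.y0
  have hx := hT.hx
  have hy := hT.hy
  have hj' : (2 : ℝ) ≤ j := by exact_mod_cast hj2
  have hx3 : x ≤ 1 / 3 := by nlinarith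
  have hy2 : y ≤ 1 / 2 := by nlinarith
  have c1 : -(j : ℝ) ≤ t := by exact_mod_cast b1
  have c2 : (t : ℝ) ≤ j := by exact_mod_cast b2
  have c6 : 1 + (r : ℝ) ≤ j + t := by exact_mod_cast b6
  have c8 : -((j : ℝ) - t) ≤ 1 - r := by exact_mod_cast b7
  have hxk : 0 < x ^ k := pow_pos hx0 k
  have hyk : 0 < y ^ k := pow_pos hy0 k
  have hA : x ^ 2 + t * x * x ^ k < r * x ^ k * (1 - x - x ^ 2) := by
    have : x * j = 1 - x := by linarith
    nlinarith
  have hB : r * y ^ k * (1 - y ^ 2) ≤ y ^ 2 + t * y * y ^ k := by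
    nlinarith
  rcases Nat.lt_or_ge k 2 with hk2 | hk2
  · -- `k = 1`
    obtain rfl : k = 1 := by omega
    rw [pow_one] at hA hB
    have hA' : x * (1 + t) < r * (1 - x - x ^ 2) := by
      have : x * (x * (1 + t)) < x * (r * (1 - x - x ^ 2)) := by linarith
      exact lt_of_mul_lt_mul_left this hx0.le
    have hB' : r * (1 - y ^ 2) ≤ y * (1 + t) := by
      have : y * (r * (1 - y ^ 2)) ≤ y * (y * (1 + t)) := by linarith
      exact le_of_mul_le_mul_left this hy0
    have hL : 0 < 1 - x - x ^ 2 := by nlinarith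
    rcases lt_trichotomy r 0 with h0 | h0 | h0
    · have h1 : (r : ℝ) ≤ -1 := by exact_mod_cast (by omega : r ≤ -1)
      have h2 : x * (1 + t) < -(1 - x - x ^ 2) := by nlinarith
      have h3 : x * (1 + t) < x * (-j + x) := by linarith
      have h4 := lt_of_mul_lt_mul_left h3 hx0.le
      linarith
    · rw [h0] at hA' hB'
      push_cast at hA' hB'
      rw [zero_mul] at hA' hB'
      have h1 : 1 + (t : ℝ) < 0 := by
        by_contra hcon
        push Not at hcon
        nlinarith
      have h2 : 0 ≤ 1 + (t : ℝ) := by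
        by_contra hcon
        push Not at hcon
        nlinarith
      linarith
    · rcases eq_or_ne r 1 with h1 | h1
      · rw [h1] at hA' hB'
        push_cast at hA' hB'
        rw [one_mul] at hA' hB'
        have h2 : y * (j - y) ≤ y * (1 + t) := by linarith
        have h3 := le_of_mul_le_mul_left h2 hy0
        have h4 : x * (1 + t) < x * (j - x) := by linarith
        have h5 := lt_of_mul_lt_mul_left h4 hx0.le
        have h6 : (t : ℝ) < ((j : ℤ) - 1 : ℤ) := by push_cast; linarith
        have h7 : (((j : ℤ) - 2 : ℤ) : ℝ) < t := by push_cast; linarith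
        have h8 : t < (j : ℤ) - 1 := by exact_mod_cast h6
        have h9 : (j : ℤ) - 2 < t := by exact_mod_cast h7
        omega
      · have h2 : (2 : ℝ) ≤ r := by exact_mod_cast (by omega : 2 ≤ r)
        have h3 : y * (r * (j - y)) ≤ y * (1 + t) := by
          have : y * (r * (j - y)) = r * (1 - y ^ 2) := by
            linear_combination (r : ℝ) * hy
          linarith
        have h4 := le_of_mul_le_mul_left h3 hy0
        have h5 : 2 * (j - y) ≤ r * (j - y) := mul_le_mul_of_nonneg_right h2 (by linarith)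
        have h6 : (j : ℝ) ≤ t := by linarith
        have h7 : (j : ℤ) ≤ t := by exact_mod_cast h6
        have h8 : t = j := by omega
        omega
  · have hxk2 : x ^ k ≤ x ^ 2 := pow_le_pow_of_le_one hx0.le (by linarith) hk2
    rcases le_or_gt r 0 with h0 | h0
    · have h1 : (r : ℝ) ≤ 0 := by exact_mod_cast h0
      have h2 : r * x ^ k * (1 - x - x ^ 2) ≤ 0 := by
        apply mul_nonpos_of_nonpos_of_nonneg (mul_nonpos_of_nonpos_of_nonneg h1 hxk.le)
        nlinarith
      have h3 : x ^ 2 < j * x * x ^ k := by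
        have : -(j * x * x ^ k) ≤ t * x * x ^ k := by
          have := mul_le_mul_of_nonneg_right c1 (mul_pos hx0 hxk).le
          linarith
        linarith
      have h4 : j * x * x ^ k ≤ 1 * x ^ k := by
        apply mul_le_mul_of_nonneg_right _ hxk.le
        linarith
      linarith
    · have h1 : (1 : ℝ) ≤ r := by exact_mod_cast (by omega : 1 ≤ r)
      have hrj : (r : ℝ) ≤ j := by linarith
      rcases Nat.lt_or_ge k 3 with hk3 | hk3
      · obtain rfl : k = 2 := by omega
        have hx2 : 0 < x ^ 2 := pow_pos hx0 2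
        have hy2' : 0 < y ^ 2 := pow_pos hy0 2
        have hA' : 1 + t * x < r * (1 - x - x ^ 2) := by
          have : x ^ 2 * (1 + t * x) < x ^ 2 * (r * (1 - x - x ^ 2)) := by linarith
          exact lt_of_mul_lt_mul_left this hx2.le
        have hB' : r * (1 - y ^ 2) ≤ 1 + t * y := by
          have : y ^ 2 * (r * (1 - y ^ 2)) ≤ y ^ 2 * (1 + t * y) := by linarith
          exact le_of_mul_le_mul_left this hy2'
        rcases eq_or_ne r 1 with h2 | h2
        · rw [h2] at hA' hB'
          push_cast at hA' hB'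
          rw [one_mul] at hA' hB'
          have h3 : x * (t : ℝ) < x * (-1 - x) := by linarith
          have h4 := lt_of_mul_lt_mul_left h3 hx0.le
          have h5 : y * (-y) ≤ y * (t : ℝ) := by linarith
          have h6 := le_of_mul_le_mul_left h5 hy0
          linarith
        · rcases eq_or_ne r 2 with h3 | h3
          · rw [h3] at hA' hB'
            push_cast at hA' hB'
            have h4 : y * (j - 2 * y) ≤ y * (t : ℝ) := by
              have : y * (j - 2 * y) = 1 - 2 * y ^ 2 := by linear_combination hy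
              linarith
            have h5 := le_of_mul_le_mul_left h4 hy0
            have h6 : t ≤ (j : ℤ) - 1 := by omega
            have h7 : (t : ℝ) ≤ j - 1 := by exact_mod_cast h6
            have h8 : (j : ℝ) ≤ 2 := by nlinarith
            have h9 : j = 2 := by
              have : j ≤ 2 := by exact_mod_cast h8
              omega
            subst h9
            push_cast at hx hy h5 h7
            have h10 : x = 1 / 3 := by linarith
            have h11 : y = 1 / 2 := by linarith
            rw [h10] at hA'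
            rw [h11] at h5
            norm_num at hA' h5
            linarith
          · have h4 : (3 : ℝ) ≤ r := by exact_mod_cast (by omega : 3 ≤ r)
            have h5 : (t : ℝ) ≤ 1 + j - r := by linarith
            have h6 : t * y ≤ (1 + j - r) * y := mul_le_mul_of_nonneg_right h5 hy0.le
            nlinarith
      · have hxk3 : x ^ k ≤ x ^ 3 := pow_le_pow_of_le_one hx0.le (by linarith) hk3
        have h2 : x ^ 2 < x ^ k * (r * (1 - 2 * x - x ^ 2) + (1 - 2 * x)) := by
          have h3 : (r + 1 - j) * (x * x ^ k) ≤ t * (x * x ^ k) :=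
            mul_le_mul_of_nonneg_right (by linarith) (mul_pos hx0 hxk).le
          have h4 : x * j = 1 - x := by linarith
          have h5 : (r + 1 - j) * (x * x ^ k) = x ^ k * (r * x + x - x * j) := by ring
          rw [h5, h4] at h3
          nlinarith
        have h3 : r * (1 - 2 * x - x ^ 2) + (1 - 2 * x) ≤ j * (1 - 2 * x - x ^ 2) + (1 - 2 * x) := by
          have : r * (1 - 2 * x - x ^ 2) ≤ j * (1 - 2 * x - x ^ 2) := by
            apply mul_le_mul_of_nonneg_right hrj
            nlinarith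
          linarith
        have h4 : 0 ≤ j * (1 - 2 * x - x ^ 2) + (1 - 2 * x) := by
          have : 0 ≤ (j : ℝ) * (1 - 2 * x - x ^ 2) := by
            apply mul_nonneg (by linarith)
            nlinarith
          linarith
        have h5 : x ^ 2 < x ^ 3 * (j * (1 - 2 * x - x ^ 2) + (1 - 2 * x)) := by
          calc x ^ 2 < x ^ k * (r * (1 - 2 * x - x ^ 2) + (1 - 2 * x)) := h2
            _ ≤ x ^ k * (j * (1 - 2 * x - x ^ 2) + (1 - 2 * x)) :=
                mul_le_mul_of_nonneg_left h3 hxk.le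
            _ ≤ _ := mul_le_mul_of_nonneg_right hxk3 h4
        have h6 : x ^ 3 * (j * (1 - 2 * x - x ^ 2) + (1 - 2 * x)) =
            x ^ 2 * ((1 - x) * (1 - 2 * x - x ^ 2) + x * (1 - 2 * x)) := by
          have h7 : x * j = 1 - x := by linarith
          rw [← h7]; ring
        rw [h6] at h5
        have h7 : x ^ 2 * ((1 - x) * (1 - 2 * x - x ^ 2) + x * (1 - 2 * x)) ≤ x ^ 2 * 1 := by
          apply mul_le_mul_of_nonneg_left _ (sq_nonneg x)
          have h8 : x ^ 3 ≤ x ^ 2 := pow_le_pow_of_le_one hx0.le (by linarith) (by norm_num)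
          nlinarith
        linarith

/-- ROW OC_P5, the one-variable half. -/
theorem p5_one {q f V : ℤ[X]} {j : ℕ} {x y : ℝ} (hT : O4X.Tp j q f x y)
    (hX : X * V = (1 - X - X ^ 2) * f - q) (hVz : ∀ z : ℂ, ‖z‖ < 1 → (aeval z V : ℂ) ≠ 0)
    (hle : ∀ z : ℂ, ‖z‖ = 1 → ‖(aeval z f : ℂ)‖ ≤ ‖(aeval z V : ℂ)‖) (hC : BPR.Cn j V f)
    (hD : f ≠ 1 → OC.Bnm j V f ∨ Bpx (j - 1) (V - f) f) : False := by
  by_cases hf1 : f = 1
  · have h1 := hC.2 hf1
    subst hf1
    exact O4X.one_bqx hT hX h1
  · rcases O4X.bpf_fin hT hX (bpf_of_bpx (hC.1 hf1)) with ⟨k, t, r, hk, hV, hf⟩ | ⟨hj, hV, -⟩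
    · exact p5_bin hT hX hVz hle hk hV hf
    · rcases hD hf1 with ⟨k, t, r, hk, hV', hf⟩ | hB
      · exact p5_bin hT hX hVz hle hk hV' hf
      · rcases hB with ⟨k, t, r, hk, -, hf⟩ | ⟨s, M, F, hs, hF, -⟩
        · refine p5_bin (t := r) hT hX hVz hle hk ?_ hf
          rw [hV, hf, hj]
          have : (C ((3 : ℕ) : ℤ) : ℤ[X]) = 3 := by simp
          rw [this]; ring
        · have := hF.1
          omega

end Pool.Agent.B5.OC89
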